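import Pool.Agent.Q287.Slice
import Pool.Agent.Q287.SliceContain

/-!
# Bounded subspaces containing all minimal slice rank decompositions

For all `d` and `k` there is a constant `C d k` such that for every tensor of order `d` and slice
rank `k` over any field there are subspaces of dimension at most `C d k` containing the spans of the
one-variable factors of all slice rank decompositions of minimal length.
-/

set_option linter.all false

namespace Pool.Agent.Results.MP_f1e34e_co.BoundedContainer

open Module Pool.Agent.Q287.Slice Pool.Agent.Q287.SliceContain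

universe u

variable {F : Type u} [Field F] {d : ℕ} {n : Fin d → ℕ}

/-- The multilinear form on tuples of functionals given by a tensor. -/
noncomputable def tau (T : (∀ j, Fin (n j)) → F) :
    MultilinearMap F (fun l => Dual F (Fin (n l) → F)) F :=
  ∑ x, T x • (MultilinearMap.mkPiAlgebra F (Fin d) F).compLinearMap
    (fun l => Dual.eval F (Fin (n l) → F) (Pi.single (x l) 1))

theorem tau_apply (T : (∀ j, Fin (n j)) → F) (φ : ∀ l, Dual F (Fin (n l) → F)) :
    tau T φ = ∑ x, T x * ∏ l, φ l (Pi.single (x l) 1) := by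
  unfold tau
  rw [MultilinearMap.sum_apply]
  apply Finset.sum_congr rfl
  intro x _
  simp

theorem dual_apply {N : ℕ} (φ : Dual F (Fin N → F)) (a : Fin N → F) :
    ∑ x, φ (Pi.single x 1) * a x = φ a := by
  have h : a = ∑ x, a x • (Pi.single x (1 : F) : Fin N → F) := by
    ext i
    simp [Pi.single_apply]
  conv_rhs => rw [h]
  rw [map_sum]
  apply Finset.sum_congr rfl
  intro x _
  rw [map_smul, smul_eq_mul, mul_comm]

theorem ann_of_decomp {T : (∀ j, Fin (n j)) → F} (D : Decomp T) :
    Ann (tau T) (fun l => Submodule.span F (Set.range (D.u l))) := by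
  intro φ hφ
  rw [tau_apply]
  apply sum_mul_prod_eq_zero D (fun j x => φ j (Pi.single x 1))
  intro j i
  rw [dual_apply]
  exact hφ j _ (Submodule.subset_span ⟨i, rfl⟩)

theorem decomp_of_ann {T : (∀ j, Fin (n j)) → F} (D : ∀ l, Submodule F (Fin (n l) → F))
    (hD : Ann (tau T) D) : ∃ E : Decomp T, ∀ l, E.s l = finrank F (D l) := by
  classical
  choose p hp using fun l => LinearMap.exists_leftInverse_of_injective (D l).subtype
    (Submodule.ker_subtype (D l))
  let b := fun l => finBasis F (D l)
  let δ : ∀ l, Fin (n l) → Dual F (Fin (n l) → F) := fun l x => LinearMap.proj x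
  let q : ∀ l, Fin (n l) → Dual F (Fin (n l) → F) := fun l x =>
    δ l x - (δ l x) ∘ₗ ((D l).subtype ∘ₗ p l)
  let α : ∀ l, Fin (finrank F (D l)) → Dual F (Fin (n l) → F) := fun l i => (b l).coord i ∘ₗ p l
  have hq : ∀ l x, ∀ v ∈ D l, q l x v = 0 := by
    intro l x v hv
    have h1 : p l v = ⟨v, hv⟩ := LinearMap.congr_fun (hp l) ⟨v, hv⟩
    show v x - ((p l v : D l) : Fin (n l) → F) x = 0
    rw [h1]
    simp
  have hδq : ∀ l x, δ l x - q l x = ∑ i, ((b l i : D l) : Fin (n l) → F) x • α l i := by
    intro l x
    apply LinearMap.ext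
    intro v
    rw [LinearMap.sub_apply, LinearMap.sum_apply]
    have h1 := (b l).sum_repr (p l v)
    have h2 : δ l x v - q l x v = ((p l v : D l) : Fin (n l) → F) x := by
      show v x - (v x - ((p l v : D l) : Fin (n l) → F) x) = _
      ring
    rw [h2]
    conv_lhs => rw [← h1]
    rw [Submodule.coe_sum, Finset.sum_apply]
    apply Finset.sum_congr rfl
    intro i _
    show (b l).repr (p l v) i * ((b l i : D l) : Fin (n l) → F) x =
      ((b l i : D l) : Fin (n l) → F) x * (b l).repr (p l v) i
    ring
  let A : (∀ j, Fin (n j)) → ℕ → ∀ l, Dual F (Fin (n l) → F) := fun x m l =>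
    if (l : ℕ) < m then q l (x l) else δ l (x l)
  have hG0 : ∀ x, tau T (A x 0) = T x := by
    intro x
    rw [tau_apply, Finset.sum_eq_single x]
    · have : ∀ l, A x 0 l (Pi.single (x l) 1) = 1 := by
        intro l
        show (if (l : ℕ) < 0 then q l (x l) else δ l (x l)) (Pi.single (x l) 1) = 1
        rw [if_neg (Nat.not_lt_zero _)]
        show (Pi.single (x l) (1 : F) : Fin (n l) → F) (x l) = 1
        simp
      simp [this]
    · intro y _ hyx
      obtain ⟨l, hl⟩ := Function.ne_iff.1 hyx
      rw [Finset.prod_eq_zero (Finset.mem_univ l), mul_zero]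
      show (if (l : ℕ) < 0 then q l (x l) else δ l (x l)) (Pi.single (y l) 1) = 0
      rw [if_neg (Nat.not_lt_zero _)]
      show (Pi.single (y l) (1 : F) : Fin (n l) → F) (x l) = 0
      rw [Pi.single_eq_of_ne (Ne.symm hl)]
    · intro h
      exact absurd (Finset.mem_univ x) h
  have hGd : ∀ x, tau T (A x d) = 0 := by
    intro x
    apply hD
    intro l v hv
    show (if (l : ℕ) < d then q l (x l) else δ l (x l)) v = 0
    rw [if_pos l.2]
    exact hq l (x l) v hv
  let B : ∀ j : Fin d, (∀ l : {l // l ≠ j}, Fin (n l)) → ∀ l, Dual F (Fin (n l) → F) :=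
    fun j y l => if h : l = j then 0 else
      if (l : ℕ) < j then q l (y ⟨l, h⟩) else δ l (y ⟨l, h⟩)
  have hAB : ∀ (x : ∀ j, Fin (n j)) (j : Fin d) (φ : Dual F (Fin (n j) → F)),
      Function.update (A x j) j φ = Function.update (B j (fun l => x l)) j φ := by
    intro x j φ
    funext l
    by_cases h : l = j
    · subst h
      rw [Function.update_self, Function.update_self]
    · rw [Function.update_of_ne h, Function.update_of_ne h]
      show _ = dite _ _ _
      rw [dif_neg h]
  have hAj : ∀ (x : ∀ j, Fin (n j)) (j : Fin d), A x j = Function.update (A x j) j (δ j (x j)) := by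
    intro x j
    rw [eq_comm, Function.update_eq_self_iff]
    show _ = ite _ _ _
    rw [if_neg (lt_irrefl _)]
  have hAj1 : ∀ (x : ∀ j, Fin (n j)) (j : Fin d),
      A x (j + 1) = Function.update (A x j) j (q j (x j)) := by
    intro x j
    funext l
    by_cases h : l = j
    · subst h
      rw [Function.update_self]
      show ite _ _ _ = _
      rw [if_pos (Nat.lt_succ_self _)]
    · rw [Function.update_of_ne h]
      show ite _ _ _ = ite _ _ _
      have hne : (l : ℕ) ≠ j := fun h' => h (Fin.ext h')
      by_cases h2 : (l : ℕ) < j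
      · rw [if_pos h2, if_pos (by omega)]
      · rw [if_neg h2, if_neg (by omega)]
  refine ⟨⟨fun l => finrank F (D l), fun l i => ((b l i : D l) : Fin (n l) → F),
    fun j i y => tau T (Function.update (B j y) j (α j i)), ?_⟩, fun l => rfl⟩
  intro x
  have h1 : T x = ∑ m ∈ Finset.range d, (tau T (A x m) - tau T (A x (m + 1))) := by
    rw [Finset.sum_range_sub' (fun m => tau T (A x m)), hG0, hGd, sub_zero]
  rw [h1, Finset.sum_range]
  apply Finset.sum_congr rfl
  intro j _
  rw [hAj1, hAj x j, Function.update_idem, ← MultilinearMap.map_update_sub, hδq, hAB,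
    MultilinearMap.map_update_sum]
  apply Finset.sum_congr rfl
  intro i _
  rw [MultilinearMap.map_update_smul, smul_eq_mul]

/-- The containers. -/
theorem container (k : ℕ) (T : (∀ j, Fin (n j)) → F) (hT : sliceRank T = k) :
    ∃ A : ∀ j, Submodule F (Fin (n j) → F), (∀ j, finrank F (A j) ≤ bd d k k) ∧
      ∀ D : Decomp T, D.length = k → ∀ j, Submodule.span F (Set.range (D.u j)) ≤ A j := by
  have hmin : ∀ D : ∀ l, Submodule F (Fin (n l) → F), Ann (tau T) D →
      k ≤ ∑ l, finrank F (D l) := by
    intro D hD
    obtain ⟨E, hE⟩ := decomp_of_ann D hD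
    have h1 : sliceRank T ≤ E.length := Nat.sInf_le ⟨E, rfl⟩
    have h2 : E.length = ∑ l, finrank F (D l) := Finset.sum_congr rfl fun l _ => hE l
    omega
  obtain ⟨S, hS1, hS2⟩ := exists_container (tau T) k hmin
  refine ⟨S, hS1, fun D hD => ?_⟩
  have h1 := ann_of_decomp D
  apply hS2 _ h1
  apply le_antisymm _ (hmin _ h1)
  rw [← hD]
  apply Finset.sum_le_sum
  intro l _
  exact (finrank_range_le_card (D.u l)).trans (le_of_eq (Fintype.card_fin _))

/-- For all `d` and `k` there is a constant `C d k` such that for every field `F`, all `n_j` and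
every tensor `T` of order `d` over `F` with slice rank `k` there are subspaces `A_j` of `F^{n_j}` of
dimension at most `C d k` which contain the span of the `j`-th one-variable factors of every
decomposition of minimal length. -/
theorem result : ∃ C : ℕ → ℕ → ℕ, (∀ d k, 0 < C d k) ∧
    ∀ (d k : ℕ) (F : Type u) [Field F] (n : Fin d → ℕ) (T : (∀ j, Fin (n j)) → F),
      sliceRank T = k → ∃ A : ∀ j, Submodule F (Fin (n j) → F),
        (∀ j, finrank F (A j) ≤ C d k) ∧
        ∀ D : Decomp T, D.length = k → ∀ j, Submodule.span F (Set.range (D.u j)) ≤ A j := by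
  refine ⟨fun d k => bd d k k + 1, fun d k => Nat.succ_pos _, ?_⟩
  intro d k F _ n T hT
  obtain ⟨A, hA1, hA2⟩ := container k T hT
  exact ⟨A, fun j => (hA1 j).trans (Nat.le_succ _), hA2⟩

end Pool.Agent.Results.MP_f1e34e_co.BoundedContainer
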